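import Pool.Agent.H71.HD.Wnd
import Pool.Agent.H71.FS.Sc

/-!
# Boolean-valued boxes: definitions
-/

set_option autoImplicit false

open Finset BV

namespace HD

variable {B : Type} [CompleteBooleanAlgebra B]

open Classical in
/-- `b` or its complement -/
noncomputable def lit (b : B) (v : Prop) : B := if v then b else bᶜ

/-- Boolean value of: the sequences `x` and `y` agree below `n` -/
noncomputable def agB (n : ℕ) (x y : ℕ → B) : B := ⨅ i ∈ range n, bihimp (x i) (y i)

/-- a sequence as a Boolean-valued sequence -/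
noncomputable def cb (x : ℕ → Bool) : ℕ → B := fun i => if x i then ⊤ else ⊥

/-- levels of boxes with sides between `2 ^ (-n)` and `2 ^ (-N)` -/
def lev (n N : ℕ) : Finset ℕ := (range N).filter fun m => n < 4 * (m + 1) ∧ 4 * (m + 1) ≤ N

/-- Boolean value of: `x` is in none of the boxes `(m, s)` with `lw k < 4 * (m + 1) ≤ lw (k + 2)` -/
noncomputable def esc (a : ℕ → Finset ℕ → ℕ → B) (x : ℕ → Bool) (k : ℕ) : B :=
  ⨅ m ∈ lev (lw k) (lw (k + 2)), ⨅ s ∈ (range m).powerset, (agB (4 * (m + 1)) (cb x) (a m s))ᶜ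

/-- the node `p` (a finite 0-1 sequence of length `p.1`, the indicator function of `p.2`) is good:
it is in none of the boxes of side `≥ 2 ^ (-p.1)` which meet the vertical line over `x`, and there are no
such boxes of side less than `2 ^ (-p.1)` and at least `2 ^ (-2 * p.1)` -/
noncomputable def good (a a' : ℕ → Finset ℕ → ℕ → B) (x : ℕ → Bool) (p : ℕ × Finset ℕ) : B :=
  (⨅ m ∈ lev 0 p.1, ⨅ s ∈ (range m).powerset,
    (agB (4 * (m + 1)) (cb x) (a m s) ⊓ ⨅ i ∈ range (4 * (m + 1)), lit (a' m s i) (i ∈ p.2))ᶜ) ⊓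
  (⨅ m ∈ lev p.1 (2 * p.1), ⨅ s ∈ (range m).powerset, (agB (4 * (m + 1)) (cb x) (a m s))ᶜ)

theorem lit_of_true (b : B) {v : Prop} (h : v) : lit b v = b := if_pos h

theorem lit_of_false (b : B) {v : Prop} (h : ¬ v) : lit b v = bᶜ := if_neg h

theorem lit_mem_iff (U : UF B) (b : B) (v : Prop) : lit b v ∈ U ↔ (b ∈ U ↔ v) := by
  by_cases h : v
  · rw [lit_of_true b h]
    simp [h]
  · rw [lit_of_false b h, UF.compl_mem_iff]
    simp [h]

theorem bihimp_mem_iff (U : UF B) (a b : B) : bihimp a b ∈ U ↔ (a ∈ U ↔ b ∈ U) := by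
  rw [bihimp_def, UF.inf_mem_iff, UF.himp_mem_iff, UF.himp_mem_iff]
  exact ⟨fun h => ⟨h.2, h.1⟩, fun h => ⟨h.2, h.1⟩⟩

theorem biInf_mem_iff (U : UF B) {ι : Type*} (s : Finset ι) (f : ι → B) :
    (⨅ i ∈ s, f i) ∈ U ↔ ∀ i ∈ s, f i ∈ U := by
  classical
  induction s using Finset.induction_on with
  | empty =>
    simp only [Finset.notMem_empty, iInf_false, iInf_top, false_imp_iff, implies_true, iff_true]
    exact U.top_mem
  | insert a s ha ih =>
    rw [Finset.iInf_insert, UF.inf_mem_iff, ih]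
    simp

theorem agB_mem_iff (U : UF B) (n : ℕ) (x y : ℕ → B) :
    agB n x y ∈ U ↔ ∀ i < n, (x i ∈ U ↔ y i ∈ U) := by
  unfold agB
  rw [biInf_mem_iff]
  simp only [Finset.mem_range, bihimp_mem_iff]

theorem cb_mem_iff (U : UF B) (x : ℕ → Bool) (i : ℕ) : (cb x i : B) ∈ U ↔ x i = true := by
  unfold cb
  by_cases h : x i = true
  · rw [if_pos h]
    exact ⟨fun _ => h, fun _ => U.top_mem⟩
  · rw [if_neg h]
    exact ⟨fun h' => absurd h' U.bot_notMem, fun h' => absurd h' h⟩

theorem mem_lev {n N m : ℕ} : m ∈ lev n N ↔ n < 4 * (m + 1) ∧ 4 * (m + 1) ≤ N := by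
  unfold lev
  rw [mem_filter, mem_range]
  constructor
  · exact fun h => h.2
  · exact fun h => ⟨by omega, h⟩

end HD
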