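import Pool.Agent.H71.HD.Defs

/-!
# BRANCH: Boolean-valued branches
-/

set_option autoImplicit false

open Finset BV

namespace HD

variable {B : Type} [CompleteBooleanAlgebra B]

open Classical in
/-- one step: the first good node in `nx j p` -/
private noncomputable def brE (G : ℕ × Finset ℕ → B) (nx : ℕ → ℕ × Finset ℕ → Set (ℕ × Finset ℕ))
    (j : ℕ) (p q : ℕ × Finset ℕ) : B :=
  if q ∈ nx j p then
    G q ⊓ (⨆ q' : {q' : ℕ × Finset ℕ // q' ∈ nx j p ∧ Encodable.encode q' < Encodable.encode q},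
      G q'.1)ᶜ
  else ⊥

open Classical in
private noncomputable def brF (G : ℕ × Finset ℕ → B) (nx : ℕ → ℕ × Finset ℕ → Set (ℕ × Finset ℕ)) :
    ℕ → ℕ × Finset ℕ → B
  | 0 => fun p => if p = (0, ∅) then ⊤ else ⊥
  | j + 1 => fun q => ⨆ p, brF G nx j p ⊓ brE G nx j p q

section

variable (G : ℕ × Finset ℕ → B) (nx : ℕ → ℕ × Finset ℕ → Set (ℕ × Finset ℕ))

private theorem brE_le (j : ℕ) (p q : ℕ × Finset ℕ) : brE G nx j p q ≤ G q := by
  unfold brE
  split_ifs
  · exact inf_le_left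
  · exact bot_le

private theorem brE_disj (j : ℕ) (p q q' : ℕ × Finset ℕ) (h : q ≠ q') :
    brE G nx j p q ⊓ brE G nx j p q' = ⊥ := by
  have key : ∀ q q' : ℕ × Finset ℕ, Encodable.encode q < Encodable.encode q' →
      brE G nx j p q ⊓ brE G nx j p q' = ⊥ := by
    intro q q' hlt
    by_cases hq : q ∈ nx j p
    · by_cases hq' : q' ∈ nx j p
      · rw [eq_bot_iff]
        have h1 : brE G nx j p q' ≤ (G q)ᶜ := by
          unfold brE
          rw [if_pos hq']
          refine inf_le_right.trans (compl_le_compl ?_)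
          exact le_iSup (fun r : {q'' : ℕ × Finset ℕ // q'' ∈ nx j p ∧
            Encodable.encode q'' < Encodable.encode q'} => G r.1) ⟨q, hq, hlt⟩
        calc brE G nx j p q ⊓ brE G nx j p q' ≤ G q ⊓ (G q)ᶜ :=
              inf_le_inf (brE_le G nx j p q) h1
          _ = ⊥ := inf_compl_eq_bot
      · have : brE G nx j p q' = ⊥ := if_neg hq'
        rw [this, inf_bot_eq]
    · have : brE G nx j p q = ⊥ := if_neg hq
      rw [this, bot_inf_eq]
  rcases lt_trichotomy (Encodable.encode q) (Encodable.encode q') with h1 | h1 | h1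
  · exact key q q' h1
  · exact absurd (Encodable.encode_injective h1) h
  · rw [inf_comm]
    exact key q' q h1

private theorem le_iSup_brE (j : ℕ) (p : ℕ × Finset ℕ) :
    (⨆ q ∈ nx j p, G q) ≤ ⨆ q, brE G nx j p q := by
  have key : ∀ n : ℕ, ∀ q ∈ nx j p, Encodable.encode q < n → G q ≤ ⨆ q, brE G nx j p q := by
    intro n
    induction n with
    | zero => intro q _ h; exact absurd h (Nat.not_lt_zero _)
    | succ n ih =>
      intro q hq hlt
      set S : B := ⨆ q' : {q' : ℕ × Finset ℕ // q' ∈ nx j p ∧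
        Encodable.encode q' < Encodable.encode q}, G q'.1 with hS
      have h1 : G q = (G q ⊓ Sᶜ) ⊔ (G q ⊓ S) := by
        rw [← inf_sup_left, sup_comm, sup_compl_eq_top, inf_top_eq]
      rw [h1]
      refine sup_le ?_ ?_
      · have h2 : brE G nx j p q = G q ⊓ Sᶜ := if_pos hq
        rw [← h2]
        exact le_iSup (fun q => brE G nx j p q) q
      · refine inf_le_right.trans (iSup_le fun r => ?_)
        exact ih r.1 r.2.1 (by have := r.2.2; omega)
  exact iSup_le fun q => iSup_le fun hq => key (Encodable.encode q + 1) q hq (Nat.lt_succ_self _)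

private theorem brF_succ (j : ℕ) (q : ℕ × Finset ℕ) :
    brF G nx (j + 1) q = ⨆ p, brF G nx j p ⊓ brE G nx j p q := rfl

private theorem brF_le (h0 : G (0, ∅) = ⊤) (j : ℕ) (p : ℕ × Finset ℕ) : brF G nx j p ≤ G p := by
  cases j with
  | zero =>
    show (if p = (0, ∅) then ⊤ else ⊥) ≤ G p
    split_ifs with h
    · rw [h, h0]
    · exact bot_le
  | succ j =>
    rw [brF_succ]
    exact iSup_le fun p' => inf_le_right.trans (brE_le G nx j p' p)

private theorem brF_top (h0 : G (0, ∅) = ⊤) (hG : ∀ j p, G p ≤ ⨆ q ∈ nx j p, G q) (j : ℕ) :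
    (⨆ p, brF G nx j p) = ⊤ := by
  induction j with
  | zero =>
    rw [eq_top_iff]
    refine le_trans ?_ (le_iSup _ (0, ∅))
    show ⊤ ≤ (if ((0, ∅) : ℕ × Finset ℕ) = (0, ∅) then ⊤ else ⊥)
    rw [if_pos rfl]
  | succ j ih =>
    have h1 : (⨆ q, brF G nx (j + 1) q) = ⨆ p, brF G nx j p ⊓ ⨆ q, brE G nx j p q := by
      simp_rw [brF_succ]
      rw [iSup_comm]
      congr 1
      funext p
      rw [inf_iSup_eq]
    rw [h1, eq_top_iff, ← ih]
    refine iSup_mono fun p => ?_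
    exact le_inf le_rfl ((brF_le G nx h0 j p).trans ((hG j p).trans (le_iSup_brE G nx j p)))

private theorem brF_ne_bot {j : ℕ} {q : ℕ × Finset ℕ} {c : B} (h : c ⊓ brF G nx (j + 1) q ≠ ⊥) :
    ∃ p, q ∈ nx j p ∧ c ⊓ brF G nx j p ≠ ⊥ := by
  by_contra hcon
  push Not at hcon
  apply h
  rw [brF_succ, inf_iSup_eq, iSup_eq_bot]
  intro p
  by_cases hq : q ∈ nx j p
  · rw [← inf_assoc, hcon p hq, bot_inf_eq]
  · have : brE G nx j p q = ⊥ := if_neg hq
    rw [this, inf_bot_eq, inf_bot_eq]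

private theorem brF_disj (j : ℕ) (p p' : ℕ × Finset ℕ) (h : p ≠ p') :
    brF G nx j p ⊓ brF G nx j p' = ⊥ := by
  induction j generalizing p p' with
  | zero =>
    show (if p = (0, ∅) then ⊤ else ⊥) ⊓ (if p' = (0, ∅) then ⊤ else ⊥) = (⊥ : B)
    by_cases h1 : p = (0, ∅)
    · have h2 : p' ≠ (0, ∅) := fun h2 => h (h1.trans h2.symm)
      rw [if_neg h2, inf_bot_eq]
    · rw [if_neg h1, bot_inf_eq]
  | succ j ih =>
    rw [brF_succ, brF_succ, iSup_inf_eq, iSup_eq_bot]
    intro r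
    rw [inf_iSup_eq, iSup_eq_bot]
    intro r'
    by_cases hr : r = r'
    · subst hr
      rw [eq_bot_iff, ← brE_disj G nx j r p p' h]
      exact inf_le_inf inf_le_right inf_le_right
    · rw [eq_bot_iff, ← ih r r' hr]
      exact inf_le_inf inf_le_left inf_le_left

private theorem brF_ext (hext : ∀ j p q, q ∈ nx j p → p.1 < q.1 ∧ ∀ i < p.1, (i ∈ q.2 ↔ i ∈ p.2))
    (j k : ℕ) (p p' : ℕ × Finset ℕ) (h : brF G nx j p ⊓ brF G nx (j + k) p' ≠ ⊥) :
    p.1 ≤ p'.1 ∧ ∀ i < p.1, (i ∈ p'.2 ↔ i ∈ p.2) := by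
  induction k generalizing p' with
  | zero =>
    have : p = p' := by
      by_contra hne
      exact h (brF_disj G nx j p p' hne)
    subst this
    exact ⟨le_rfl, fun i _ => Iff.rfl⟩
  | succ k ih =>
    obtain ⟨r, hr, hr2⟩ := brF_ne_bot G nx (j := j + k) h
    have h1 := ih r hr2
    have h2 := hext _ _ _ hr
    refine ⟨by omega, fun i hi => ?_⟩
    rw [h2.2 i (by omega), h1.2 i hi]

end

/-- A node `p : ℕ × Finset ℕ` is the finite 0-1 sequence of length `p.1` given by the set `p.2`. `G p` is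
the Boolean value of `p` is good, and `nx j p` is a set of extensions of `p`; a good node has a good
extension in `nx j p`. Then there is a Boolean-valued sequence `y`; `F j p` is the Boolean value of
`p` is the `j`-th node on the branch `y`.

Proof: enumerate the nodes: `p_0, p_1, ...` (`Encodable`). `F 0 p = ⊤` if `p = (0, ∅)` and `⊥`
otherwise; `F (j + 1) q = ⨆ p, F j p ⊓ E j p q`, where for `q ∈ nx j p` the value `E j p q` is `G q`
minus the supremum of the `G q'`, `q' ∈ nx j p`, `q'` before `q` in the enumeration (`⊥` if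
`q ∉ nx j p`). So `F j` is a partition of `⊤`: the values are pairwise disjoint and have
supremum `⊤`. Let `y i` be the supremum of all `F j p` with `i < p.1`, `i ∈ p.2`. For `j ≤ j'`, if
`F j p ⊓ F j' p' ≠ ⊥` then `p'` extends `p` (induction on `j'`). -/
theorem exists_branch (G : ℕ × Finset ℕ → B) (nx : ℕ → ℕ × Finset ℕ → Set (ℕ × Finset ℕ))
    (h0 : G (0, ∅) = ⊤)
    (hext : ∀ j p q, q ∈ nx j p → p.1 < q.1 ∧ ∀ i < p.1, (i ∈ q.2 ↔ i ∈ p.2))
    (hG : ∀ j p, G p ≤ ⨆ q ∈ nx j p, G q) :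
    ∃ (y : ℕ → B) (F : ℕ → ℕ × Finset ℕ → B), (∀ j, (⨆ p, F j p) = ⊤) ∧ (∀ j p, F j p ≤ G p) ∧
      (∀ j q, F (j + 1) q ≠ ⊥ → ∃ p, q ∈ nx j p) ∧
      ∀ j p i, i < p.1 → F j p ≤ lit (y i) (i ∈ p.2) := by
  refine ⟨fun i => ⨆ r : {r : ℕ × (ℕ × Finset ℕ) // i < r.2.1 ∧ i ∈ r.2.2}, brF G nx r.1.1 r.1.2,
    brF G nx, brF_top G nx h0 hG, brF_le G nx h0, ?_, ?_⟩
  · intro j q hq
    obtain ⟨p, hp, -⟩ := brF_ne_bot G nx (c := ⊤) (by rwa [top_inf_eq])
    exact ⟨p, hp⟩
  · intro j p i hi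
    by_cases hmem : i ∈ p.2
    · rw [lit_of_true _ hmem]
      exact le_iSup (fun r : {r : ℕ × (ℕ × Finset ℕ) // i < r.2.1 ∧ i ∈ r.2.2} =>
        brF G nx r.1.1 r.1.2) ⟨(j, p), hi, hmem⟩
    · rw [lit_of_false _ hmem, le_compl_iff_disjoint_right, disjoint_iff, inf_iSup_eq,
        iSup_eq_bot]
      rintro ⟨⟨j', p'⟩, hr1, hr2⟩
      show brF G nx j p ⊓ brF G nx j' p' = ⊥
      by_contra hne
      rcases le_total j j' with hjj | hjj
      · obtain ⟨k, rfl⟩ := Nat.exists_eq_add_of_le hjj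
        exact hmem (((brF_ext G nx hext j k p p' hne).2 i hi).1 hr2)
      · obtain ⟨k, rfl⟩ := Nat.exists_eq_add_of_le hjj
        rw [inf_comm] at hne
        exact hmem (((brF_ext G nx hext j' k p' p hne).2 i hr1).2 hr2)

end HD
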