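import Pool.Agent.H71.HD.Wnd

/-!
# DIAG: diagonalisation against countably many systems of boxes
-/

set_option autoImplicit false

open Finset

namespace HD

/-- For every `j` a system of boxes `u j m s` is given. There is a sequence `x` such that for all `j`
there are infinitely many `k` such that `x` is in none of the boxes `(m, s)` of the `j`-th system with
`lw k < 4 * (m + 1) ≤ lw (k + 2)`.

Proof: enumerate the pairs `(j, k0)` and construct longer and longer initial segments of `x`. If `t`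
is the initial segment of length `n` and `(j, k0)` is the next pair, choose `k ≥ k0` with
`2 * n ≤ lw k` and apply `exists_avoid` with `N = lw (k + 2)` and
`act m s ↔ lw k < 4 * (m + 1) ∧ 4 * (m + 1) ≤ lw (k + 2)`. -/
theorem exists_diag (u : ℕ → ℕ → Finset ℕ → ℕ → Bool) :
    ∃ x : ℕ → Bool, ∀ j k0, ∃ k, k0 ≤ k ∧ ∀ m, lw k < 4 * (m + 1) → 4 * (m + 1) ≤ lw (k + 2) →
      ∀ s ⊆ range m, ∃ i < 4 * (m + 1), x i ≠ u j m s i := by
  have step : ∀ (st : ℕ × (ℕ → Bool)) (j k0 : ℕ), ∃ st' : ℕ × (ℕ → Bool), st.1 < st'.1 ∧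
      (∀ i < st.1, st'.2 i = st.2 i) ∧ ∃ k, k0 ≤ k ∧ ∀ m, lw k < 4 * (m + 1) →
        4 * (m + 1) ≤ lw (k + 2) → 4 * (m + 1) ≤ st'.1 ∧
          ∀ s ⊆ range m, ∃ i < 4 * (m + 1), st'.2 i ≠ u j m s i := by
    intro st j k0
    obtain ⟨n, t⟩ := st
    let k := max k0 (2 * n)
    have hk : 2 * n ≤ lw k := (le_max_right _ _).trans (le_lw k)
    have hk2 : lw k < lw (k + 2) := (lw_lt k).trans (lw_lt (k + 1))
    obtain ⟨r, h1, -, h3⟩ := exists_avoid n (lw (k + 2)) (by omega) t
      (fun m _ => lw k < 4 * (m + 1) ∧ 4 * (m + 1) ≤ lw (k + 2)) (u j) (by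
        intro m s _ hact h4
        omega)
    refine ⟨(lw (k + 2), r), by show n < lw (k + 2); omega, h1, k, le_max_left _ _, ?_⟩
    intro m hm1 hm2
    exact ⟨hm2, fun s hs => h3 m hm2 s hs ⟨hm1, hm2⟩⟩
  choose g hg1 hg2 hg3 using step
  let st : ℕ → ℕ × (ℕ → Bool) := fun a =>
    Nat.rec (0, fun _ => false) (fun a c => g c a.unpair.1 a.unpair.2) a
  have hst : ∀ a, st (a + 1) = g (st a) a.unpair.1 a.unpair.2 := fun a => rfl
  have hlt : ∀ a, (st a).1 < (st (a + 1)).1 := fun a => by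
    rw [hst]
    exact hg1 _ _ _
  have hle : ∀ a, a ≤ (st a).1 := by
    intro a
    induction a with
    | zero => exact Nat.zero_le _
    | succ a ih => exact lt_of_le_of_lt ih (hlt a)
  have hmono : ∀ a b, a ≤ b → (st a).1 ≤ (st b).1 := fun a b h =>
    monotone_nat_of_le_succ (f := fun a => (st a).1) (fun n => (hlt n).le) h
  have hag : ∀ a b, a ≤ b → ∀ i < (st a).1, (st b).2 i = (st a).2 i := by
    intro a b h
    induction b, h using Nat.le_induction with
    | base => exact fun _ _ => rfl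
    | succ b hb ih =>
      intro i hi
      rw [← ih i hi, hst]
      exact hg2 _ _ _ i (lt_of_lt_of_le hi (hmono a b hb))
  have hx : ∀ b i, i < (st b).1 → (st (i + 1)).2 i = (st b).2 i := by
    intro b i hi
    rcases le_total (i + 1) b with h | h
    · exact (hag _ _ h i (hle (i + 1))).symm
    · exact hag _ _ h i hi
  refine ⟨fun i => (st (i + 1)).2 i, fun j k0 => ?_⟩
  obtain ⟨k, hk, h⟩ := hg3 (st (Nat.pair j k0)) j k0
  refine ⟨k, hk, fun m hm1 hm2 s hs => ?_⟩
  obtain ⟨h1, h2⟩ := h m hm1 hm2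
  obtain ⟨i, hi, h3⟩ := h2 s hs
  have h4 : st (Nat.pair j k0 + 1) = g (st (Nat.pair j k0)) j k0 := by
    rw [hst, Nat.unpair_pair]
  refine ⟨i, hi, ?_⟩
  show (st (i + 1)).2 i ≠ u j m s i
  rw [hx (Nat.pair j k0 + 1) i (by rw [h4]; exact lt_of_lt_of_le hi h1), h4]
  exact h3

end HD
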