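import Pool.Agent.H71.HD.Defs
import Pool.Agent.H71.HD.Diag

/-!
# NC: ground model reals escape from Boolean-valued systems of boxes
-/

set_option autoImplicit false

open Finset BV

namespace HD

variable {B : Type} [CompleteBooleanAlgebra B]

/-- Enumerate the triples `(m, s, i) : ℕ × Finset ℕ × ℕ` (`Encodable`), and apply the property `SC` to
the `a m s i`; this gives valuations `w j`, that is systems of boxes `u j m s i`. Take `x` from
`exists_diag`. If the supremum is not `⊤`, let `c ≠ ⊥` be its complement and `j` as in `SC`, and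
take `k ≥ k0` for this `j` from `exists_diag`. Let `F` be the finite set of the triples `(m, s, i)` with
`m ∈ lev (lw k) (lw (k + 2))`, `s ⊆ range m`, `i < 4 * (m + 1)`. Then the infimum over `F` in `SC` is
`≤ esc a x k`. -/
theorem exists_esc (hB : FS.SC B) (a : ℕ → Finset ℕ → ℕ → B) :
    ∃ x : ℕ → Bool, ∀ k0, (⨆ k, ⨆ (_ : k0 ≤ k), esc a x k) = ⊤ := by
  classical
  obtain ⟨φ, hφ⟩ := exists_surjective_nat (ℕ × Finset ℕ × ℕ)
  obtain ⟨ψ, hψ⟩ := hφ.hasRightInverse
  let b : ℕ → B := fun n => a (φ n).1 (φ n).2.1 (φ n).2.2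
  obtain ⟨w, hw⟩ := hB b
  obtain ⟨x, hx⟩ := exists_diag (fun j m s i => w j (ψ (m, s, i)))
  refine ⟨x, fun k0 => ?_⟩
  by_contra hne
  have hc : (⨆ k, ⨆ (_ : k0 ≤ k), esc a x k)ᶜ ≠ ⊥ := fun h => hne (compl_eq_bot.1 h)
  obtain ⟨j, hj⟩ := hw _ hc
  obtain ⟨k, hk, h⟩ := hx j k0
  let F : Finset ℕ := ((range (lw (k + 2))) ×ˢ (range (lw (k + 2))).powerset ×ˢ
    range (lw (k + 2))).image ψ
  refine hj F ?_
  rw [← disjoint_iff, disjoint_comm, ← le_compl_iff_disjoint_right, compl_compl]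
  refine le_trans ?_ (le_iSup₂_of_le k hk le_rfl)
  refine UF.le_of_forall fun U hU => ?_
  unfold esc
  rw [biInf_mem_iff]
  intro m hm
  rw [mem_lev] at hm
  rw [biInf_mem_iff]
  intro s hs
  rw [mem_powerset] at hs
  rw [UF.compl_mem_iff, agB_mem_iff]
  intro hag
  obtain ⟨i, hi, hne2⟩ := h m hm.1 hm.2 s hs
  have h1 : ψ (m, s, i) ∈ F := by
    refine mem_image.2 ⟨(m, s, i), ?_, rfl⟩
    simp only [mem_product, mem_range, mem_powerset]
    refine ⟨by omega, hs.trans ?_, by omega⟩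
    intro y hy
    rw [mem_range] at hy ⊢
    omega
  rw [biInf_mem_iff] at hU
  have h2 := hU _ h1
  have h3 : b (ψ (m, s, i)) = a m s i := by
    show a (φ (ψ (m, s, i))).1 (φ (ψ (m, s, i))).2.1 (φ (ψ (m, s, i))).2.2 = a m s i
    rw [hψ (m, s, i)]
  have h4 := hag i hi
  rw [cb_mem_iff] at h4
  rw [h3] at h2
  apply hne2
  show x i = w j (ψ (m, s, i))
  cases hwj : w j (ψ (m, s, i))
  · rw [hwj] at h2
    simp only [Bool.false_eq_true, if_false] at h2
    rw [UF.compl_mem_iff, ← h4] at h2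
    simpa using h2
  · rw [hwj] at h2
    simp only [if_true] at h2
    exact h4.2 h2

end HD
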