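import Pool.Agent.H71.HD.Defs

/-!
# STEP: good nodes have good extensions
-/

set_option autoImplicit false

open Finset BV

namespace HD

variable {B : Type} [CompleteBooleanAlgebra B]

private theorem step_good_iff (U : UF B) (a a' : ℕ → Finset ℕ → ℕ → B) (x : ℕ → Bool)
    (p : ℕ × Finset ℕ) : good a a' x p ∈ U ↔
      (∀ m ∈ lev 0 p.1, ∀ s ∈ (range m).powerset, ¬ (agB (4 * (m + 1)) (cb x) (a m s) ∈ U ∧
        ∀ i < 4 * (m + 1), (a' m s i ∈ U ↔ i ∈ p.2))) ∧
      (∀ m ∈ lev p.1 (2 * p.1), ∀ s ∈ (range m).powerset,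
        ¬ agB (4 * (m + 1)) (cb x) (a m s) ∈ U) := by
  unfold good
  rw [UF.inf_mem_iff, biInf_mem_iff, biInf_mem_iff]
  simp only [biInf_mem_iff, UF.compl_mem_iff, UF.inf_mem_iff, lit_mem_iff]
  simp only [Finset.mem_range]

private theorem step_esc_iff (U : UF B) (a : ℕ → Finset ℕ → ℕ → B) (x : ℕ → Bool) (k : ℕ) :
    esc a x k ∈ U ↔ ∀ m ∈ lev (lw k) (lw (k + 2)), ∀ s ∈ (range m).powerset,
      ¬ agB (4 * (m + 1)) (cb x) (a m s) ∈ U := by
  unfold esc
  rw [biInf_mem_iff]
  simp only [biInf_mem_iff, UF.compl_mem_iff]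

/-- By `UF.le_of_forall`: let `U` be an ultrafilter containing the left side. Apply `exists_avoid` with
`n = p.1`, `N = lw k`, `t` the indicator function of `p.2`,
`act m s ↔ agB (4 * (m + 1)) (cb x) (a m s) ∈ U` and `v m s i = true ↔ a' m s i ∈ U`. It gives `r`; let
`q = {i < lw k | r i = true}`. Then `good a a' x (lw (k + 1), q) ∈ U`: for the boxes with
`4 * (m + 1) ≤ lw k` by the choice of `r`, for those with `lw k < 4 * (m + 1) ≤ 2 * lw (k + 1)` because
`esc a x k ∈ U` (`two_mul_lw_le`). Use `biInf_mem_iff`, `agB_mem_iff`, `lit_mem_iff`. -/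
theorem good_step (a a' : ℕ → Finset ℕ → ℕ → B) (x : ℕ → Bool) (p : ℕ × Finset ℕ) (k : ℕ)
    (hk : p.1 ≤ lw k) : good a a' x p ⊓ esc a x k ≤
      ⨆ q : Finset ℕ, ⨆ (_ : q ⊆ range (lw k) ∧ ∀ i < p.1, (i ∈ q ↔ i ∈ p.2)),
        good a a' x (lw (k + 1), q) := by
  classical
  apply UF.le_of_forall
  intro U hU
  rw [UF.inf_mem_iff, step_good_iff, step_esc_iff] at hU
  obtain ⟨⟨h1, h2⟩, h3⟩ := hU
  obtain ⟨r, hr1, hr2, hr3⟩ := exists_avoid p.1 (lw k) hk (fun i => decide (i ∈ p.2))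
    (fun m s => agB (4 * (m + 1)) (cb x) (a m s) ∈ U) (fun m s i => decide (a' m s i ∈ U)) (by
      intro m s hs hact hm
      have h4 : 4 * (m + 1) ≤ p.1 := by
        by_contra h5
        exact h2 m (mem_lev.2 ⟨by omega, hm⟩) s (Finset.mem_powerset.2 hs) hact
      refine ⟨h4, ?_⟩
      by_contra h5
      push Not at h5
      refine h1 m (mem_lev.2 ⟨by omega, h4⟩) s (Finset.mem_powerset.2 hs) ⟨hact, ?_⟩
      intro i hi
      have h6 := h5 i hi
      rw [decide_eq_decide] at h6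
      exact h6.symm)
  set q : Finset ℕ := (range (lw k)).filter (fun i => r i = true) with hq
  have hmq : ∀ i, i < lw k → (i ∈ q ↔ r i = true) := by
    intro i hi
    rw [hq, Finset.mem_filter, Finset.mem_range]
    exact ⟨fun h => h.2, fun h => ⟨hi, h⟩⟩
  have hqU : good a a' x (lw (k + 1), q) ∈ U := by
    rw [step_good_iff]
    constructor
    · intro m hm s hs
      have hm' := mem_lev.1 hm
      rintro ⟨hact, hi⟩
      by_cases h4 : 4 * (m + 1) ≤ lw k
      · obtain ⟨i, hi1, hi2⟩ := hr3 m h4 s (Finset.mem_powerset.1 hs) hact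
        apply hi2
        have h5 := hi i hi1
        have h6 := hmq i (by omega)
        have h7 : (a' m s i ∈ U) ↔ r i = true := h5.trans h6
        by_cases h8 : r i = true
        · rw [h8]
          exact (decide_eq_true (h7.2 h8)).symm
        · have h9 : ¬ a' m s i ∈ U := fun h => h8 (h7.1 h)
          rw [Bool.not_eq_true] at h8
          rw [h8]
          exact (decide_eq_false h9).symm
      · refine h3 m (mem_lev.2 ⟨by omega, ?_⟩) s hs hact
        exact hm'.2.trans (lw_lt (k + 1)).le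
    · intro m hm s hs hact
      have hm' := mem_lev.1 hm
      refine h3 m (mem_lev.2 ⟨?_, ?_⟩) s hs hact
      · exact (lw_lt k).trans hm'.1
      · exact hm'.2.trans (two_mul_lw_le k)
  have hle : good a a' x (lw (k + 1), q) ≤
      ⨆ q : Finset ℕ, ⨆ (_ : q ⊆ range (lw k) ∧ ∀ i < p.1, (i ∈ q ↔ i ∈ p.2)),
        good a a' x (lw (k + 1), q) := by
    refine le_iSup_of_le q (le_iSup_of_le ⟨Finset.filter_subset _ _, ?_⟩ le_rfl)
    intro i hi
    rw [hmq i (by omega), hr1 i hi, decide_eq_true_iff]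
  exact U.mem_of_le' _ _ hqU hle

theorem good_zero (a a' : ℕ → Finset ℕ → ℕ → B) (x : ℕ → Bool) : good a a' x (0, ∅) = ⊤ := by
  rw [eq_top_iff]
  apply UF.le_of_forall
  intro U _
  rw [step_good_iff]
  constructor
  · intro m hm
    have := mem_lev.1 hm
    omega
  · intro m hm
    have := mem_lev.1 hm
    omega

end HD
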