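import Pool.Agent.H71.HD.Nc
import Pool.Agent.H71.HD.Branch
import Pool.Agent.H71.HD.Step

/-!
# NONCAP: no Boolean-valued system of boxes covers the product
-/

set_option autoImplicit false

open Finset BV

namespace HD

variable {B : Type} [CompleteBooleanAlgebra B]

/-- Boolean value of: `y` is zero on infinitely many windows -/
noncomputable def bY (y : ℕ → B) : B :=
  ⨅ j, ⨆ k, ⨆ (_ : j ≤ k), ⨅ i ∈ Finset.Ico (lw k) (lw (k + 1)), (y i)ᶜ

/-- the property of `B` which is used: for all Boolean-valued systems of boxes `a m s × a' m s`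
(with sides `2 ^ (- 4 * (m + 1))`, and `2 ^ m` boxes for every `m`) there are a sequence `x` in the ground
model and a Boolean-valued sequence `y`, which is zero on infinitely many windows, such that `(x, y)` is
in none of the boxes -/
def NonCap (B : Type) [CompleteBooleanAlgebra B] : Prop :=
  ∀ a a' : ℕ → Finset ℕ → ℕ → B, ∃ (x : ℕ → Bool) (y : ℕ → B), bY y = ⊤ ∧
    ∀ m, ∀ s ⊆ range m,
      agB (4 * (m + 1)) (cb x) (a m s) ⊓ agB (4 * (m + 1)) y (a' m s) = ⊥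

/-- Take `x` from `exists_esc`, and apply `exists_branch` to `G = good a a' x` and
`nx j p = {q | ∃ k, j ≤ k ∧ p.1 ≤ lw k ∧ q.1 = lw (k + 1) ∧ q.2 ⊆ range (lw k) ∧
∀ i < p.1, (i ∈ q.2 ↔ i ∈ p.2)}`. The hypothesis `hG` follows from `good_step` and the choice of `x`:
`good p = good p ⊓ ⨆ k ≥ max j p.1, esc a x k`. For `q ∈ nx j p` with `q.1 = lw (k + 1)` we have
`F (j + 1) q ≤ (y i)ᶜ` for `lw k ≤ i < lw (k + 1)`; this gives `bY y = ⊤`. Let `(m, s)` be given, and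
`j = 4 * (m + 1)`. For all `q` the value `F (j + 1) q ⊓ agB .. (cb x) (a m s) ⊓ agB .. y (a' m s)` is
`⊥`: if `F (j + 1) q ≠ ⊥` then `4 * (m + 1) ≤ j ≤ q.1` and `F (j + 1) q ≤ good a a' x q`. -/
theorem nonCap_of_SC (hB : FS.SC B) : NonCap B := by
  intro a a'
  obtain ⟨x, hx⟩ := exists_esc hB a
  let nx : ℕ → ℕ × Finset ℕ → Set (ℕ × Finset ℕ) := fun j p =>
    {q | ∃ k, j ≤ k ∧ p.1 ≤ lw k ∧ q.1 = lw (k + 1) ∧ q.2 ⊆ range (lw k) ∧
      ∀ i < p.1, (i ∈ q.2 ↔ i ∈ p.2)}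
  have hext : ∀ j p q, q ∈ nx j p → p.1 < q.1 ∧ ∀ i < p.1, (i ∈ q.2 ↔ i ∈ p.2) := by
    rintro j p q ⟨k, hjk, hpk, hq1, hq2, hq3⟩
    refine ⟨?_, hq3⟩
    rw [hq1]
    exact lt_of_le_of_lt hpk (lw_lt k)
  have hG : ∀ j p, good a a' x p ≤ ⨆ q ∈ nx j p, good a a' x q := by
    intro j p
    have h1 : good a a' x p ≤ good a a' x p ⊓ ⨆ k, ⨆ (_ : max j p.1 ≤ k), esc a x k :=
      le_inf le_rfl (by rw [hx]; exact le_top)
    refine h1.trans ?_
    rw [inf_iSup_eq]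
    refine iSup_le fun k => ?_
    rw [inf_iSup_eq]
    refine iSup_le fun hk => ?_
    have hpk : p.1 ≤ lw k := (le_trans (le_max_right _ _) hk).trans (le_lw k)
    refine (good_step a a' x p k hpk).trans ?_
    refine iSup_le fun q => iSup_le fun hq => ?_
    refine le_iSup₂_of_le (lw (k + 1), q) ?_ le_rfl
    exact ⟨k, le_trans (le_max_left _ _) hk, hpk, rfl, hq.1, hq.2⟩
  obtain ⟨y, F, hF1, hF2, hF3, hF4⟩ := exists_branch (good a a' x) nx (good_zero a a' x) hext hG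
  refine ⟨x, y, ?_, ?_⟩
  · rw [eq_top_iff]
    refine le_iInf fun j => ?_
    rw [← hF1 (j + 1)]
    refine iSup_le fun q => ?_
    by_cases h0 : F (j + 1) q = ⊥
    · rw [h0]
      exact bot_le
    obtain ⟨p, k, hjk, hpk, hq1, hq2, hq3⟩ := hF3 j q h0
    refine le_iSup₂_of_le k hjk (le_iInf₂ fun i hi => ?_)
    rw [Finset.mem_Ico] at hi
    have h1 := hF4 (j + 1) q i (by rw [hq1]; exact hi.2)
    rwa [lit_of_false] at h1
    intro h2
    have h3 := hq2 h2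
    rw [mem_range] at h3
    omega
  · intro m s hs
    by_contra hne
    have h1 : (agB (4 * (m + 1)) (cb x) (a m s) ⊓ agB (4 * (m + 1)) y (a' m s)) ⊓
        ⨆ q, F (4 * (m + 1) + 1) q ≠ ⊥ := by
      rw [hF1, inf_top_eq]
      exact hne
    rw [inf_iSup_eq] at h1
    have h2 : ∃ q, (agB (4 * (m + 1)) (cb x) (a m s) ⊓ agB (4 * (m + 1)) y (a' m s)) ⊓
        F (4 * (m + 1) + 1) q ≠ ⊥ := by
      by_contra hcon
      push Not at hcon
      apply h1
      rw [eq_bot_iff]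
      exact iSup_le fun q => (hcon q).le
    obtain ⟨q, hq⟩ := h2
    obtain ⟨U, hU⟩ := UF.exists_mem hq
    rw [UF.inf_mem_iff, UF.inf_mem_iff] at hU
    obtain ⟨⟨hU1, hU2⟩, hU3⟩ := hU
    have h0 : F (4 * (m + 1) + 1) q ≠ ⊥ := by
      intro h0
      rw [h0] at hU3
      exact U.bot_notMem hU3
    obtain ⟨p, k, hjk, hpk, hq1, hq2, hq3⟩ := hF3 _ q h0
    have h4 : 4 * (m + 1) ≤ q.1 := by
      rw [hq1]
      exact (hjk.trans (Nat.le_succ k)).trans (le_lw (k + 1))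
    have h5 : good a a' x q ∈ U := U.mem_of_le hU3 (hF2 _ q)
    unfold good at h5
    rw [UF.inf_mem_iff, biInf_mem_iff] at h5
    have h6 := h5.1 m (mem_lev.2 ⟨by omega, h4⟩)
    rw [biInf_mem_iff] at h6
    have h7 := h6 s (mem_powerset.2 hs)
    rw [UF.compl_mem_iff] at h7
    apply h7
    rw [UF.inf_mem_iff, biInf_mem_iff]
    refine ⟨hU1, fun i hi => ?_⟩
    rw [mem_range] at hi
    rw [agB_mem_iff] at hU2
    have h8 : lit (y i) (i ∈ q.2) ∈ U := U.mem_of_le hU3 (hF4 _ q i (by omega))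
    rw [lit_mem_iff] at h8 ⊢
    rw [← hU2 i hi]
    exact h8

end HD
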