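import Mathlib

/-!
# WND: windows and finite counting
-/

set_option autoImplicit false

open Finset

namespace HD

/-- end points of the windows: the `k`-th window is the interval `[lw k, lw (k + 1))` -/
def lw : ℕ → ℕ
  | 0 => 0
  | k + 1 => (k + 2) * (lw k + 1)

theorem lw_lt (k : ℕ) : lw k < lw (k + 1) := by
  show lw k < (k + 2) * (lw k + 1)
  nlinarith [Nat.zero_le (k * lw k)]

theorem lw_mono {k k' : ℕ} (h : k ≤ k') : lw k ≤ lw k' :=
  (strictMono_nat_of_lt_succ lw_lt).monotone h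

theorem le_lw (k : ℕ) : k ≤ lw k :=
  (strictMono_nat_of_lt_succ lw_lt).le_apply

theorem two_mul_lw_le (k : ℕ) : 2 * lw (k + 1) ≤ lw (k + 2) := by
  show 2 * lw (k + 1) ≤ (k + 1 + 2) * (lw (k + 1) + 1)
  nlinarith [Nat.zero_le (k * lw (k + 1))]

theorem lw_window {c k : ℕ} (h : c ≤ k) : c * (lw k + 1) ≤ lw (k + 1) := by
  show c * (lw k + 1) ≤ (k + 2) * (lw k + 1)
  exact Nat.mul_le_mul_right _ (by omega)

/-- the sequence which is `t` below `n` and `W` above `n` -/
private def wseq (n : ℕ) (t : ℕ → Bool) (W : Finset ℕ) : ℕ → Bool :=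
  fun i => if i < n then t i else decide (i ∈ W)

private theorem wnd_card (n N c : ℕ) (_hn : n ≤ c) (t v : ℕ → Bool) :
    (((Ico n N).powerset).filter (fun W => ∀ i < c, wseq n t W i = v i)).card ≤ 2 ^ (N - c) := by
  classical
  have h1 : (2 : ℕ) ^ (N - c) = ((Ico c N).powerset).card := by
    rw [card_powerset, Nat.card_Ico]
  rw [h1]
  refine card_le_card_of_injOn (fun W => W ∩ Ico c N) ?_ ?_
  · intro W _
    rw [Finset.mem_coe, mem_powerset]
    exact inter_subset_right
  · intro W hW W' hW' hWW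
    rw [Finset.mem_coe, mem_filter, mem_powerset] at hW hW'
    have hWW' : W ∩ Ico c N = W' ∩ Ico c N := hWW
    ext i
    by_cases hi : i < n
    · constructor
      · intro h
        have := Finset.mem_Ico.1 (hW.1 h)
        omega
      · intro h
        have := Finset.mem_Ico.1 (hW'.1 h)
        omega
    · by_cases hic : i < c
      · have h2 := (hW.2 i hic).trans (hW'.2 i hic).symm
        unfold wseq at h2
        rw [if_neg hi, if_neg hi, decide_eq_decide] at h2
        exact h2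
      · by_cases hiN : i < N
        · have h3 : i ∈ W ∩ Ico c N ↔ i ∈ W' ∩ Ico c N := by rw [hWW']
          rw [mem_inter, mem_inter, Finset.mem_Ico] at h3
          constructor
          · intro h
            exact (h3.1 ⟨h, by omega, hiN⟩).1
          · intro h
            exact (h3.2 ⟨h, by omega, hiN⟩).1
        · constructor
          · intro h
            have := Finset.mem_Ico.1 (hW.1 h)
            omega
          · intro h
            have := Finset.mem_Ico.1 (hW'.1 h)
            omega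

private theorem wnd_sum (n N : ℕ) :
    ∑ m ∈ (range N).filter (fun m => 2 * n < 4 * (m + 1) ∧ 4 * (m + 1) ≤ N),
      2 ^ m * 2 ^ (N - 4 * (m + 1)) < 2 ^ (N - n) := by
  have h1 : ∀ m ∈ (range N).filter (fun m => 2 * n < 4 * (m + 1) ∧ 4 * (m + 1) ≤ N),
      ((2 ^ m * 2 ^ (N - 4 * (m + 1)) : ℕ) : ℝ) ≤ (2 ^ (N - n) / 8) * (1 / 2) ^ m := by
    intro m hm
    rw [mem_filter] at hm
    have h2 : m + (N - 4 * (m + 1)) + (m + 3) ≤ N - n := by omega
    have h3 : (2 : ℝ) ^ (m + (N - 4 * (m + 1)) + (m + 3)) ≤ 2 ^ (N - n) :=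
      pow_le_pow_right₀ (by norm_num) h2
    push_cast
    rw [← pow_add, one_div, inv_pow, ← div_eq_mul_inv, le_div_iff₀ (by positivity),
      le_div_iff₀ (by positivity)]
    calc (2 : ℝ) ^ (m + (N - 4 * (m + 1))) * 2 ^ m * 8
        = 2 ^ (m + (N - 4 * (m + 1)) + (m + 3)) := by
          rw [pow_add _ (m + (N - 4 * (m + 1))) (m + 3), pow_add _ m 3]
          ring
      _ ≤ 2 ^ (N - n) := h3
  have h4 : ((∑ m ∈ (range N).filter (fun m => 2 * n < 4 * (m + 1) ∧ 4 * (m + 1) ≤ N),
      2 ^ m * 2 ^ (N - 4 * (m + 1)) : ℕ) : ℝ) < ((2 ^ (N - n) : ℕ) : ℝ) := by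
    rw [Nat.cast_sum]
    calc ∑ m ∈ (range N).filter (fun m => 2 * n < 4 * (m + 1) ∧ 4 * (m + 1) ≤ N),
          ((2 ^ m * 2 ^ (N - 4 * (m + 1)) : ℕ) : ℝ)
        ≤ ∑ m ∈ (range N).filter (fun m => 2 * n < 4 * (m + 1) ∧ 4 * (m + 1) ≤ N),
          (2 ^ (N - n) / 8 : ℝ) * (1 / 2) ^ m := sum_le_sum h1
      _ ≤ ∑ m ∈ range N, (2 ^ (N - n) / 8 : ℝ) * (1 / 2) ^ m :=
          sum_le_sum_of_subset_of_nonneg (filter_subset _ _) fun _ _ _ => by positivity
      _ = (2 ^ (N - n) / 8 : ℝ) * ∑ m ∈ range N, (1 / 2 : ℝ) ^ m := by rw [mul_sum]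
      _ ≤ (2 ^ (N - n) / 8 : ℝ) * 2 :=
          mul_le_mul_of_nonneg_left (sum_geometric_two_le N) (by positivity)
      _ < ((2 ^ (N - n) : ℕ) : ℝ) := by
          push_cast
          have : (0 : ℝ) < 2 ^ (N - n) := by positivity
          linarith
  exact_mod_cast h4

/-- Counting. The pairs `(m, s)`, `s ⊆ {0, .., m - 1}`, are boxes; the box `(m, s)` is the set of all
0-1 sequences which agree with `v m s` below `4 * (m + 1)`. Some of the boxes are active. If the
active boxes with `4 * (m + 1) ≤ n` do not contain any extension of `t` restricted to `n`, and there are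
no active boxes with `n < 4 * (m + 1) ≤ 2 * n`, then there is a sequence `r` which extends
`t` restricted to `n` and is not in any active box with `4 * (m + 1) ≤ N`.

Proof: there are `2 ^ (N - n)` sequences of length `N` which extend `t` restricted to `n`; for
`2 * n < 4 * (m + 1) ≤ N` at most `2 ^ m * 2 ^ (N - 4 * (m + 1))` of them are in active boxes of
level `m`; the sum over these `m` is less than `2 ^ (N - n)`, since
`∑ 2 ^ (m - 4 * (m + 1)) < 2 ^ (- n)`, the sum over the `m` with `n < 2 * (m + 1)`. -/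
theorem exists_avoid (n N : ℕ) (hn : n ≤ N) (t : ℕ → Bool) (act : ℕ → Finset ℕ → Prop)
    (v : ℕ → Finset ℕ → ℕ → Bool)
    (h : ∀ m s, s ⊆ range m → act m s → 4 * (m + 1) ≤ 2 * n →
      4 * (m + 1) ≤ n ∧ ∃ i < 4 * (m + 1), t i ≠ v m s i) :
    ∃ r : ℕ → Bool, (∀ i < n, r i = t i) ∧ (∀ i, N ≤ i → r i = false) ∧
      ∀ m, 4 * (m + 1) ≤ N → ∀ s ⊆ range m, act m s → ∃ i < 4 * (m + 1), r i ≠ v m s i := by
  classical
  by_contra hcon
  push Not at hcon
  have hbad : ∀ W ∈ (Ico n N).powerset, ∃ m, (2 * n < 4 * (m + 1) ∧ 4 * (m + 1) ≤ N) ∧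
      ∃ s ⊆ range m, ∀ i < 4 * (m + 1), wseq n t W i = v m s i := by
    intro W hW
    rw [mem_powerset] at hW
    obtain ⟨m, hm, s, hs, hact, hi⟩ := hcon (wseq n t W)
      (fun i hi => by unfold wseq; rw [if_pos hi])
      (fun i hi => by
        unfold wseq
        rw [if_neg (by omega), decide_eq_false_iff_not]
        intro h1
        have := Finset.mem_Ico.1 (hW h1)
        omega)
    refine ⟨m, ⟨?_, hm⟩, s, hs, hi⟩
    by_contra h1
    obtain ⟨h2, i, hi1, hi2⟩ := h m s hs hact (by omega)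
    apply hi2
    have h3 := hi i hi1
    unfold wseq at h3
    rwa [if_pos (by omega)] at h3
  have hsub : (Ico n N).powerset ⊆
      ((range N).filter (fun m => 2 * n < 4 * (m + 1) ∧ 4 * (m + 1) ≤ N)).biUnion
        (fun m => ((range m).powerset).biUnion (fun s =>
          ((Ico n N).powerset).filter (fun W => ∀ i < 4 * (m + 1), wseq n t W i = v m s i))) := by
    intro W hW
    obtain ⟨m, hm, s, hs, hi⟩ := hbad W hW
    rw [mem_biUnion]
    refine ⟨m, ?_, ?_⟩
    · rw [mem_filter, Finset.mem_range]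
      exact ⟨by omega, hm⟩
    · rw [mem_biUnion]
      exact ⟨s, mem_powerset.2 hs, mem_filter.2 ⟨hW, hi⟩⟩
  have h1 := card_le_card hsub
  rw [card_powerset, Nat.card_Ico] at h1
  have h2 := wnd_sum n N
  refine absurd (h1.trans ?_) (not_le.2 h2)
  refine card_biUnion_le.trans (sum_le_sum fun m hm => ?_)
  rw [mem_filter] at hm
  refine card_biUnion_le.trans ?_
  calc ∑ s ∈ (range m).powerset, (((Ico n N).powerset).filter
        (fun W => ∀ i < 4 * (m + 1), wseq n t W i = v m s i)).card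
      ≤ ∑ _s ∈ (range m).powerset, 2 ^ (N - 4 * (m + 1)) :=
        sum_le_sum fun s _ => wnd_card n N (4 * (m + 1)) (by omega) t (v m s)
    _ = 2 ^ m * 2 ^ (N - 4 * (m + 1)) := by
        rw [sum_const, card_powerset, card_range, smul_eq_mul]

end HD
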